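import Pool.Agent.H81.CG.Four
import Pool.Agent.H81.CG.Dim

/-!
# Every isomorphism of cell-adjacency graphs extends to exactly one equivalence

(1) For `d ≥ 3` two `d`-arrangements with isomorphic cell-adjacency graphs are equivalent.
(2) If there are at least five hyperplanes, then every isomorphism of the cell-adjacency graphs is
the restriction to the `d`-cells of exactly one equivalence.
(3) The only other case with `d ≥ 3` is that of four planes in projective three-space; there some
automorphism of the cell-adjacency graph is not induced by any equivalence.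
(4) The cell-adjacency graph determines the dimension and the number of hyperplanes.

The definitions are word for word those of the library module
`Pool.Graph.R_seed8.Results.MP_d06cab_co.CellGraph`, which answers the question with (1).
-/

set_option autoImplicit false

namespace Pool.Agent.Results.MP_d06cab_co.EveryIsomorphismExtends

/-- A `d`-arrangement in real projective `d`-space (the lines through the origin of
`ℝ^(d+1)`): a finite family of distinct hyperplanes, given by normal vectors, with no
point common to all of them. -/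
structure Arrangement (d : ℕ) where
  n : ℕ
  a : Fin n → (Fin (d + 1) → ℝ)
  ne_zero : ∀ i, a i ≠ 0
  distinct : ∀ i j, i ≠ j → ∀ c : ℝ, a i ≠ c • a j
  no_common_point : ∀ x : Fin (d + 1) → ℝ, (∀ i, dotProduct (a i) x = 0) → x = 0

namespace Arrangement

variable {d : ℕ} (A : Arrangement d)

/-- The sign vector of a point. -/
noncomputable def signs (x : Fin (d + 1) → ℝ) : Fin A.n → SignType :=
  fun i => SignType.sign (dotProduct (A.a i) x)

/-- The relatively open face of the projective point `x`, as the set of all nonzero vectors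
representing its points: those whose sign vector is that of `x` or that of `-x`. -/
def face (x : Fin (d + 1) → ℝ) : Set (Fin (d + 1) → ℝ) :=
  {y | y ≠ 0 ∧ (A.signs y = A.signs x ∨ A.signs y = -A.signs x)}

/-- The faces of the cell complex of the arrangement. -/
def Face : Type := {F : Set (Fin (d + 1) → ℝ) // ∃ x, x ≠ 0 ∧ F = A.face x}

variable {A} in
/-- The (projective) dimension of a face. -/
noncomputable def Face.dim (F : A.Face) : ℕ :=
  Module.finrank ℝ (Submodule.span ℝ F.1) - 1

/-- Incidence: the face `F` lies in the closure of the face `G`. -/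
def InClosure (F G : A.Face) : Prop := F.1 ⊆ closure G.1

/-- The `d`-cells. -/
def Cell : Type := {F : A.Face // F.dim = d}

/-- The cell-adjacency graph: two different `d`-cells are adjacent when some face of dimension
`d - 1` lies in the closure of both. -/
def cellGraph : SimpleGraph A.Cell where
  Adj C D := C ≠ D ∧ ∃ F : A.Face, F.dim + 1 = d ∧ A.InClosure F C.1 ∧ A.InClosure F D.1
  symm := ⟨fun _ _ ⟨h, F, h1, h2, h3⟩ => ⟨h.symm, F, h1, h3, h2⟩⟩
  loopless := ⟨fun _ h => h.1 rfl⟩

end Arrangement

/-- A bijection between the faces of `A` and those of `B` that preserves incidence in both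
directions. -/
def IsEquivalence {d : ℕ} (A B : Arrangement d) (ψ : A.Face ≃ B.Face) : Prop :=
  ∀ F G : A.Face, A.InClosure F G ↔ B.InClosure (ψ F) (ψ G)

/-- The arrangement as an arrangement of the library module. -/
def toLib {d : ℕ} (A : Arrangement d) : CellGraph.Arrangement d :=
  ⟨A.n, A.a, A.ne_zero, A.distinct, A.no_common_point⟩

/-- See the head of the file. -/
theorem result :
    (∀ d : ℕ, 3 ≤ d → ∀ A B : Arrangement d, Nonempty (A.cellGraph ≃g B.cellGraph) →
      ∃ ψ : A.Face ≃ B.Face, IsEquivalence A B ψ) ∧
    (∀ d : ℕ, 3 ≤ d → ∀ A B : Arrangement d, 5 ≤ A.n → ∀ φ : A.cellGraph ≃g B.cellGraph,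
      ∃! ψ : A.Face ≃ B.Face, IsEquivalence A B ψ ∧ ∀ C : A.Cell, ψ C.1 = (φ C).1) ∧
    (∀ d : ℕ, 3 ≤ d → ∀ A : Arrangement d, A.n < 5 → d = 3 ∧ A.n = 4 ∧
      ∃ φ : A.cellGraph ≃g A.cellGraph, ¬ ∃ ψ : A.Face ≃ A.Face,
        IsEquivalence A A ψ ∧ ∀ C : A.Cell, ψ C.1 = (φ C).1) ∧
    ∀ d d' : ℕ, 3 ≤ d → 3 ≤ d' → ∀ (A : Arrangement d) (B : Arrangement d'),
      Nonempty (A.cellGraph ≃g B.cellGraph) → d = d' ∧ A.n = B.n := by
  refine ⟨?_, ?_, ?_, ?_⟩
  · rintro d hd A B ⟨φ⟩
    exact CellGraph.Arrangement.equivalent_of_cellGraph_iso hd (toLib A) (toLib B) φ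
  · intro d hd A B hn φ
    exact Pool.Agent.H81.CG.extension_unique (A := toLib A) (B := toLib B) hd hn φ
  · intro d hd A hn
    have h1 : d + 1 ≤ A.n := (toLib A).le_n
    have h2 : d = 3 := by omega
    subst h2
    have h3 : A.n = 4 := by omega
    exact ⟨rfl, h3, Pool.Agent.H81.CG.four_aux (toLib A) h3⟩
  · rintro d d' hd hd' A B ⟨φ⟩
    refine ⟨Pool.Agent.H81.CG.dim_eq (A := toLib A) (B := toLib B) hd hd' φ, ?_⟩
    have hA : 3 ≤ (toLib A).n := by have := (toLib A).le_n; omega
    have hB : 3 ≤ (toLib B).n := by have := (toLib B).le_n; omega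
    have hcard := CellGraph.card_eq_of_iso ((toLib A).model hA) ((toLib B).model hB) φ
    rw [Fintype.card_fin, Fintype.card_fin] at hcard
    exact hcard

end Pool.Agent.Results.MP_d06cab_co.EveryIsomorphismExtends
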